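import Pool.Agent.Lib.MP_caf32e_co.Bd.F1

/-! A finite graph with a flat band of absolute width and length is 3-choosable. -/

namespace Pool.Agent.Results.MP_caf32e_co.FlatBand

open TorGrid TorGrid.Bd

/-- There are `W` and `ℓ0` such that every finite graph with a flat band of width `W` and length
`ℓ ≥ ℓ0` is 3-choosable. -/
theorem result : ∃ W ℓ0 : ℕ, ∀ (V : Type) [Fintype V] [DecidableEq V] (ℓ : ℕ) (_ : ℓ0 ≤ ℓ)
    (b : BandG V ℓ W) (α : Type) (L : V → Finset α) (_ : ∀ v, 3 ≤ (L v).card),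
    ∃ c : V → α, (∀ v, c v ∈ L v) ∧ ∀ u v, b.G.Adj u v → c u ≠ c v :=
  TorGrid.Bd.band_any

end Pool.Agent.Results.MP_caf32e_co.FlatBand
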