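import Pool.Agent.Lib.MP_caf32e_co.Bd.F2

/-! Every 4-regular quadrangulation of the torus of large edge width (that is, every quotient of the
square grid by a lattice without short vectors) is 3-choosable. -/

namespace Pool.Agent.Results.MP_caf32e_co.TorusQuadrangulations

/-- There is `N` such that for every subgroup `Λ` of finite index of `ℤ × ℤ` all of whose nonzero
elements have `ℓ¹`-norm at least `N` the graph `ℤ² / Λ` is 3-choosable. -/
theorem result : ∃ N : ℕ, ∀ Λ : AddSubgroup (ℤ × ℤ), Λ.FiniteIndex →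
    (∀ p ∈ Λ, p ≠ 0 → (N : ℤ) ≤ |p.1| + |p.2|) →
    ∀ (α : Type) (L : (ℤ × ℤ) ⧸ Λ → Finset α), (∀ v, 3 ≤ (L v).card) →
      ∃ c : (ℤ × ℤ) ⧸ Λ → α, (∀ v, c v ∈ L v) ∧ ∀ p : ℤ × ℤ,
        c (QuotientAddGroup.mk p) ≠ c (QuotientAddGroup.mk (p + (1, 0))) ∧
        c (QuotientAddGroup.mk p) ≠ c (QuotientAddGroup.mk (p + (0, 1))) :=
  TorGrid.Bd.torus4

end Pool.Agent.Results.MP_caf32e_co.TorusQuadrangulations
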